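import Pool.Agent.K9h58.QD.Rich

/-!
# Diophantine rich sets
-/

set_option autoImplicit false

namespace Pool.Agent.K9h58.QD

open MvPolynomial
open Pool.Agent.TH255.HC Pool.Agent.TH255.QI

/-- Diophantine sets of rational numbers -/
def Dioph (P : ℚ → Prop) : Prop :=
  ∃ (n : ℕ) (p : MvPolynomial (Fin (n + 1)) ℤ), ∀ x : ℚ,
    P x ↔ ∃ y : Fin n → ℚ, aeval (Fin.cons x y : Fin (n + 1) → ℚ) p = 0

lemma dt_of_dioph {𝒯 : Set ℚ → Prop} {P : ℚ → Prop} (h : Dioph P) :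
    DT 𝒯 (fun _ v => P (v 0)) := by
  obtain ⟨n, p, hp⟩ := h
  have h1 : DT 𝒯 (fun _ v => ∃ u : ℕ → ℚ,
      aeval (Fin.cons (v 0) (fun j : Fin n => u j) : Fin (n + 1) → ℚ) p = 0) := by
    refine DT.exs ((DT.eq (f := fun w : ℕ → ℚ =>
      aeval (Fin.cons (w (2 * 0)) (fun j : Fin n => w (2 * j + 1)) : Fin (n + 1) → ℚ) p)
      ?_ PF.zero))
    refine ⟨rename (Fin.cons (2 * 0) (fun j : Fin n => 2 * (j : ℕ) + 1) : Fin (n + 1) → ℕ) p,
      fun v => ?_⟩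
    rw [aeval_rename]
    congr 2
    funext i
    refine Fin.cases ?_ (fun j => ?_) i
    · simp
    · simp
  refine h1.congr fun T _ v => ?_
  rw [hp]
  constructor
  · rintro ⟨y, hy⟩
    refine ⟨fun m => if h : m < n then y ⟨m, h⟩ else 0, ?_⟩
    have : (fun j : Fin n => (fun m : ℕ => if h : m < n then y ⟨m, h⟩ else 0) (j : ℕ)) = y := by
      funext j
      simp
    rw [this]
    exact hy
  · rintro ⟨u, hu⟩
    exact ⟨_, hu⟩

lemma dioph_of_dt {P : ℚ → Prop} (h : DT (fun T => T = Set.univ) (fun _ v => P (v 0))) :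
    Dioph P := by
  obtain ⟨n, p, S, hp⟩ := h.final
  refine ⟨n, p, fun x => ?_⟩
  rw [hp Set.univ rfl x]
  constructor
  · rintro ⟨y, hy0, hy, -⟩
    refine ⟨Fin.tail y, ?_⟩
    rw [← hy0, Fin.cons_self_tail]
    exact hy
  · rintro ⟨y, hy⟩
    exact ⟨Fin.cons x y, by simp, hy, fun _ _ => Set.mem_univ _⟩

/-- substitution of a Diophantine set -/
theorem dioph_sub {𝒯 : Set ℚ → Prop} {T : Set ℚ} (hT : 𝒯 T) (hd : Dioph (fun x => x ∈ T))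
    {P : ℚ → Prop} (h : DT 𝒯 (fun _ v => P (v 0))) : Dioph P :=
  dioph_of_dt (dt_sub (Φ := fun _ => T) (fun _ _ => hT) (dt_of_dioph hd) h)

/-- the set of the integers -/
def ZZ : Set ℚ := {x | ∃ z : ℤ, x = z}

lemma zz_small : SmallDen 0 0 ZZ := by
  rintro x ⟨z, rfl⟩
  simp

lemma zz_rich : Rich (X 0 : MvPolynomial (Fin 1) ℤ) 1 0 1 ZZ := by
  intro N _
  have h1 : {m : ℤ | |m| ≤ N ∧ ∃ t : Fin 1 → ℚ, (∀ i, t i ∈ ZZ ∧ |t i| ≤ (N : ℚ) ^ 1) ∧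
      aeval t (X 0 : MvPolynomial (Fin 1) ℤ) = (m : ℚ)} = Set.Icc (-(N : ℤ)) N := by
    ext m
    simp only [Set.mem_setOf_eq, Set.mem_Icc, aeval_X, pow_one]
    constructor
    · rintro ⟨h, -⟩
      exact abs_le.mp h
    · intro h
      have h2 : |m| ≤ N := abs_le.mpr h
      refine ⟨h2, fun _ => (m : ℚ), fun _ => ⟨⟨m, rfl⟩, ?_⟩, rfl⟩
      change |(m : ℚ)| ≤ (N : ℚ)
      exact_mod_cast h2
  rw [h1, ← Finset.coe_Icc, Set.ncard_coe_finset, Int.card_Icc, one_mul]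
  have : N ≤ ((N : ℤ) + 1 - -(N : ℤ)).toNat := by omega
  exact_mod_cast this

lemma zz_banach : Banach (X 0 : MvPolynomial (Fin 1) ℤ) 1 ZZ := by
  intro L
  refine ⟨L, 0, le_rfl, ?_⟩
  have h1 : {m : ℤ | 0 ≤ m ∧ m < 0 + (L : ℤ) ∧ ∃ t : Fin 1 → ℚ, (∀ i, t i ∈ ZZ) ∧
      aeval t (X 0 : MvPolynomial (Fin 1) ℤ) = (m : ℚ)} = Set.Ico (0 : ℤ) L := by
    ext m
    simp only [Set.mem_setOf_eq, Set.mem_Ico, aeval_X, zero_add]
    constructor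
    · rintro ⟨h, h', -⟩
      exact ⟨h, h'⟩
    · intro h
      exact ⟨h.1, h.2, fun _ => (m : ℚ), fun _ => ⟨m, rfl⟩, rfl⟩
  rw [h1, ← Finset.coe_Ico, Set.ncard_coe_finset, Int.card_Ico, one_mul]
  have : L ≤ ((L : ℤ) - 0).toNat := by omega
  exact_mod_cast this

end Pool.Agent.K9h58.QD
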