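import Pool.Agent.TH255.QI.All

/-!
# Denominators of the values of polynomials
-/

set_option autoImplicit false

namespace Pool.Agent.K9h58.QD

open MvPolynomial

variable {ι : Type} [Fintype ι]

/-- the denominator of a value of a polynomial -/
theorem den_aeval (G : MvPolynomial ι ℤ) : ∃ N : ℕ, ∀ t : ι → ℚ,
    (aeval t G : ℚ).den ≤ (∏ i, (t i).den) ^ N := by
  classical
  obtain ⟨N, G', h⟩ := Pool.Agent.TH255.QI.clear G
  refine ⟨N, fun t => ?_⟩
  have h1 := h (fun i => ((t i).num : ℚ)) (fun i => ((t i).den : ℚ))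
    (fun i => by exact_mod_cast (t i).den_ne_zero)
  have h2 : (fun i => ((t i).num : ℚ) / ((t i).den : ℚ)) = t :=
    funext fun i => Rat.num_div_den (t i)
  rw [h2] at h1
  have h3 : ∃ z : ℤ, aeval (Sum.elim (fun i => ((t i).num : ℚ)) (fun i => ((t i).den : ℚ))) G' =
      (z : ℚ) := by
    refine ⟨eval (Sum.elim (fun i => (t i).num) (fun i => ((t i).den : ℤ))) G', ?_⟩
    have h4 : (Sum.elim (fun i => ((t i).num : ℚ)) (fun i => ((t i).den : ℚ))) =
        (algebraMap ℤ ℚ) ∘ (Sum.elim (fun i => (t i).num) (fun i => ((t i).den : ℤ))) := by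
      funext s
      rcases s with i | i <;> simp
    rw [h4, aeval_algebraMap_apply]
    simp [aeval_eq_eval]
  obtain ⟨z, hz⟩ := h3
  rw [hz] at h1
  have hP : ((∏ i, (t i).den : ℕ) : ℚ) = ∏ i, ((t i).den : ℚ) := by push_cast; rfl
  rw [← hP] at h1
  set M : ℕ := (∏ i, (t i).den) ^ N with hM
  have hMpos : 0 < M := by
    rw [hM]
    exact pow_pos (Finset.prod_pos fun i _ => (t i).den_pos) N
  have h5 : (aeval t G : ℚ) = (z : ℚ) / (M : ℤ) := by
    rw [eq_div_iff (by exact_mod_cast hMpos.ne')]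
    rw [h1, hM]
    push_cast
    ring
  have h6 : ((aeval t G : ℚ).den : ℤ) ∣ (M : ℤ) := by
    rw [h5, ← Rat.divInt_eq_div]
    exact Rat.den_dvd z M
  exact Nat.le_of_dvd hMpos (by exact_mod_cast h6)

/-- sets of rational numbers with small denominators -/
def SmallDen (A δ : ℝ) (T : Set ℚ) : Prop :=
  ∀ x ∈ T, Real.log x.den ≤ A * (1 + Real.log (max 1 |(x : ℝ)|)) ^ δ

/-- the rational numbers `x` some multiple `r x`, `1 ≤ r ≤ r₀`, of which is a value of `G` at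
elements of `T` which are not too large -/
def Hat (G : MvPolynomial ι ℤ) (c K r₀ : ℕ) (T : Set ℚ) : Set ℚ :=
  {x | ∃ t : ι → ℚ, (∀ i, t i ∈ T ∧ t i ^ 2 ≤ (K * (1 + x ^ 2)) ^ c) ∧
    ∃ r : ℕ, 1 ≤ r ∧ r ≤ r₀ ∧ (r : ℚ) * x = aeval t G}

lemma one_le_pow_max {L δ : ℝ} (hL : 0 ≤ L) : 1 ≤ (1 + L) ^ (max δ 0) :=
  Real.one_le_rpow (by linarith) (le_max_right _ _)

lemma den_of_mul {x : ℚ} {r : ℕ} (hr : 1 ≤ r) {y : ℚ} (h : (r : ℚ) * x = y) :
    x.den ≤ r * y.den := by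
  have hr0 : (r : ℚ) ≠ 0 := by
    have : (0 : ℚ) < r := by exact_mod_cast hr
    exact this.ne'
  have h1 : x = y * (r : ℚ)⁻¹ := by
    rw [← h]
    field_simp
  have h2 : ((r : ℚ)⁻¹).den = r := by
    rw [Rat.inv_natCast_den_of_pos (by omega)]
  calc x.den = (y * (r : ℚ)⁻¹).den := by rw [← h1]
    _ ≤ y.den * ((r : ℚ)⁻¹).den := Nat.le_of_dvd (Nat.mul_pos y.den_pos (Rat.den_pos _))
        (Rat.mul_den_dvd _ _)
    _ = r * y.den := by rw [h2, mul_comm]

theorem hat_small (G : MvPolynomial ι ℤ) (c K r₀ : ℕ) (hK : 1 ≤ K) (A δ : ℝ) (hδ : δ < 1) :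
    ∃ A' : ℝ, ∀ T : Set ℚ, SmallDen A δ T → SmallDen A' (max δ 0) (Hat G c K r₀ T) := by
  obtain ⟨N, hN⟩ := den_aeval G
  set C₁ : ℝ := 1 + c * (Real.log K + Real.log 2) + 2 * c with hC₁
  have hKr : (1 : ℝ) ≤ K := by exact_mod_cast hK
  have hlK : 0 ≤ Real.log K := Real.log_nonneg hKr
  have hl2 : 0 ≤ Real.log 2 := Real.log_nonneg (by norm_num)
  have hC₁' : 1 ≤ C₁ := by
    rw [hC₁]
    have : (0 : ℝ) ≤ c := Nat.cast_nonneg _
    have : 0 ≤ (c : ℝ) * (Real.log K + Real.log 2) := by positivity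
    linarith
  refine ⟨Real.log (max 1 r₀) + N * (Fintype.card ι * (|A| * C₁)), fun T hT x hx => ?_⟩
  obtain ⟨t, ht, r, hr1, hr2, hrx⟩ := hx
  set L : ℝ := Real.log (max 1 |(x : ℝ)|) with hL
  have hm1 : (1 : ℝ) ≤ max 1 |(x : ℝ)| := le_max_left _ _
  have hL0 : 0 ≤ L := Real.log_nonneg hm1
  have hε : max δ 0 < 1 := max_lt hδ one_pos
  have hE1 : 1 ≤ (1 + L) ^ (max δ 0) := one_le_pow_max hL0
  -- the size of the `t i`
  have hti : ∀ i, 1 + Real.log (max 1 |((t i : ℚ) : ℝ)|) ≤ C₁ * (1 + L) := by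
    intro i
    have h1 : ((t i : ℚ) : ℝ) ^ 2 ≤ (K * (1 + (x : ℝ) ^ 2)) ^ c := by
      have := (ht i).2
      exact_mod_cast this
    have h2 : (1 : ℝ) ≤ K * (1 + (x : ℝ) ^ 2) := by nlinarith [sq_nonneg (x : ℝ)]
    have h3 : (max 1 |((t i : ℚ) : ℝ)|) ^ 2 ≤ (K * (1 + (x : ℝ) ^ 2)) ^ c := by
      rcases max_choice 1 |((t i : ℚ) : ℝ)| with h | h
      · rw [h]
        have := one_le_pow₀ h2 (n := c)
        linarith
      · rw [h, sq_abs]
        exact h1
    have h4 : K * (1 + (x : ℝ) ^ 2) ≤ K * 2 * (max 1 |(x : ℝ)|) ^ 2 := by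
      have h5 : (x : ℝ) ^ 2 ≤ (max 1 |(x : ℝ)|) ^ 2 := by
        rw [← sq_abs (x : ℝ)]
        exact pow_le_pow_left₀ (abs_nonneg _) (le_max_right _ _) 2
      have h6 : 1 ≤ (max 1 |(x : ℝ)|) ^ 2 := one_le_pow₀ hm1
      nlinarith
    have h7 : 2 * Real.log (max 1 |((t i : ℚ) : ℝ)|) ≤
        c * (Real.log K + Real.log 2 + 2 * L) := by
      have h8 : (0 : ℝ) < max 1 |((t i : ℚ) : ℝ)| := lt_of_lt_of_le one_pos (le_max_left _ _)
      have h9 := Real.log_le_log (by positivity) h3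
      rw [Real.log_pow, Real.log_pow] at h9
      have h10 := Real.log_le_log (by linarith) h4
      have h11 : (0 : ℝ) < max 1 |(x : ℝ)| := by linarith
      have h12 : Real.log (K * 2 * (max 1 |(x : ℝ)|) ^ 2) = Real.log K + Real.log 2 + 2 * L := by
        rw [Real.log_mul (by positivity) (by positivity), Real.log_mul (by positivity)
          (by norm_num), Real.log_pow]
        push_cast; rw [hL]
      rw [h12] at h10
      push_cast at h9
      calc 2 * Real.log (max 1 |((t i : ℚ) : ℝ)|) ≤ c * Real.log (K * (1 + (x : ℝ) ^ 2)) := h9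
        _ ≤ c * (Real.log K + Real.log 2 + 2 * L) :=
            mul_le_mul_of_nonneg_left h10 (Nat.cast_nonneg _)
    have hc0 : (0 : ℝ) ≤ c := Nat.cast_nonneg _
    have hlog0 : 0 ≤ Real.log (max 1 |((t i : ℚ) : ℝ)|) := Real.log_nonneg (le_max_left _ _)
    have h12 : 0 ≤ (c : ℝ) * (Real.log K + Real.log 2) := by positivity
    have h13 : 0 ≤ (c : ℝ) * L := by positivity
    have h14 : 0 ≤ (c : ℝ) * (Real.log K + Real.log 2) * L := by positivity
    rw [hC₁]
    nlinarith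
  -- the denominators of the `t i`
  have hdi : ∀ i, Real.log (t i).den ≤ |A| * C₁ * (1 + L) ^ (max δ 0) := by
    intro i
    have h1 := hT _ (ht i).1
    set M : ℝ := Real.log (max 1 |((t i : ℚ) : ℝ)|) with hM
    have hM0 : 0 ≤ M := Real.log_nonneg (le_max_left _ _)
    have h2 : (1 + M) ^ δ ≤ (1 + M) ^ (max δ 0) :=
      Real.rpow_le_rpow_of_exponent_le (by linarith) (le_max_left _ _)
    have h3 : (1 + M) ^ (max δ 0) ≤ (C₁ * (1 + L)) ^ (max δ 0) :=
      Real.rpow_le_rpow (by linarith) (hti i) (le_max_right _ _)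
    have h4 : (C₁ * (1 + L)) ^ (max δ 0) = C₁ ^ (max δ 0) * (1 + L) ^ (max δ 0) :=
      Real.mul_rpow (by linarith) (by linarith)
    have h5 : C₁ ^ (max δ 0) ≤ C₁ := by
      have := Real.rpow_le_rpow_of_exponent_le hC₁' hε.le
      rwa [Real.rpow_one] at this
    have h6 : 0 ≤ (1 + M) ^ δ := Real.rpow_nonneg (by linarith) _
    calc Real.log (t i).den ≤ A * (1 + M) ^ δ := h1
      _ ≤ |A| * (1 + M) ^ δ := mul_le_mul_of_nonneg_right (le_abs_self A) h6
      _ ≤ |A| * (C₁ * (1 + L) ^ (max δ 0)) := by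
          apply mul_le_mul_of_nonneg_left _ (abs_nonneg A)
          calc (1 + M) ^ δ ≤ C₁ ^ (max δ 0) * (1 + L) ^ (max δ 0) := by
                rw [← h4]; exact h2.trans h3
            _ ≤ C₁ * (1 + L) ^ (max δ 0) :=
                mul_le_mul_of_nonneg_right h5 (by linarith)
      _ = |A| * C₁ * (1 + L) ^ (max δ 0) := by ring
  -- the denominator of `x`
  have h1 : x.den ≤ r₀ * (∏ i, (t i).den) ^ N :=
    (den_of_mul hr1 hrx).trans (Nat.mul_le_mul hr2 (hN t))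
  have hr0 : (0 : ℝ) < r₀ := by exact_mod_cast (by omega : 0 < r₀)
  have hPpos : (0 : ℝ) < ∏ i, ((t i).den : ℝ) :=
    Finset.prod_pos fun i _ => by exact_mod_cast (t i).den_pos
  have h2 : Real.log x.den ≤ Real.log r₀ + N * ∑ i, Real.log ((t i).den : ℝ) := by
    have h3 : (x.den : ℝ) ≤ r₀ * (∏ i, ((t i).den : ℝ)) ^ N := by exact_mod_cast h1
    have h4 : (0 : ℝ) < x.den := by exact_mod_cast x.den_pos
    have h5 := Real.log_le_log h4 h3
    rw [Real.log_mul hr0.ne' (by positivity), Real.log_pow, Real.log_prod] at h5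
    · exact h5
    · intro i _
      exact_mod_cast (t i).den_ne_zero
  have h3 : ∑ i, Real.log ((t i).den : ℝ) ≤
      Fintype.card ι * (|A| * C₁ * (1 + L) ^ (max δ 0)) := by
    have := Finset.sum_le_card_nsmul Finset.univ (fun i => Real.log ((t i).den : ℝ)) _
      (fun i _ => hdi i)
    rwa [Finset.card_univ, nsmul_eq_mul] at this
  have h4 : Real.log r₀ ≤ Real.log (max 1 r₀) := Real.log_le_log hr0 (le_max_right _ _)
  have h5 : 0 ≤ Real.log (max 1 (r₀ : ℝ)) := Real.log_nonneg (le_max_left _ _)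
  have h6 : Real.log (max 1 (r₀ : ℝ)) ≤ Real.log (max 1 r₀) * (1 + L) ^ (max δ 0) := by
    nlinarith
  have h7 : (N : ℝ) * ∑ i, Real.log ((t i).den : ℝ) ≤
      N * (Fintype.card ι * (|A| * C₁ * (1 + L) ^ (max δ 0))) :=
    mul_le_mul_of_nonneg_left h3 (Nat.cast_nonneg _)
  calc Real.log x.den ≤ Real.log r₀ + N * ∑ i, Real.log ((t i).den : ℝ) := h2
    _ ≤ Real.log (max 1 r₀) * (1 + L) ^ (max δ 0) +
        N * (Fintype.card ι * (|A| * C₁ * (1 + L) ^ (max δ 0))) := by linarith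
    _ = (Real.log (max 1 r₀) + N * (Fintype.card ι * (|A| * C₁))) * (1 + L) ^ (max δ 0) := by ring

end Pool.Agent.K9h58.QD
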