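import Mathlib

/-!
# Translates of a dense set of integers intersect
-/

set_option autoImplicit false

namespace Pool.Agent.K9h58.QD

/-- Among the translates `S + i x`, `0 ≤ i ≤ k`, of a set `S ⊆ [a, b)` with
`(k + 1) |S| > b - a + k |x|` two intersect. -/
theorem pigeon (S : Finset ℤ) (a b x : ℤ) (k : ℕ) (hS : ∀ s ∈ S, a ≤ s ∧ s < b)
    (hab : a ≤ b) (hcard : b - a + 2 * k * |x| < (k + 1) * (S.card : ℤ)) :
    ∃ r : ℕ, 1 ≤ r ∧ r ≤ k ∧ ∃ s ∈ S, ∃ s' ∈ S, (r : ℤ) * x = s - s' := by
  classical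
  -- the map (s, i) ↦ s + i x
  let f : ℤ × ℕ → ℤ := fun q => q.1 + q.2 * x
  let D : Finset (ℤ × ℕ) := S ×ˢ Finset.range (k + 1)
  let E : Finset ℤ := Finset.Ico (a - k * |x|) (b + k * |x|)
  have hx := abs_nonneg x
  have hmaps : ∀ q ∈ D, f q ∈ E := by
    rintro ⟨s, i⟩ hq
    rw [Finset.mem_product, Finset.mem_range] at hq
    obtain ⟨h1, h2⟩ := hq
    have h3 := hS s h1
    have h4 : (i : ℤ) ≤ k := by exact_mod_cast Nat.lt_succ_iff.mp h2
    have h5 : |(i : ℤ) * x| ≤ k * |x| := by
      rw [abs_mul, abs_of_nonneg (by positivity : (0 : ℤ) ≤ i)]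
      exact mul_le_mul_of_nonneg_right h4 hx
    have h6 := abs_le.mp h5
    simp only [E, Finset.mem_Ico, f]
    constructor
    · linarith [h6.1, h3.1]
    · linarith [h6.2, h3.2]
  have hlt : E.card < D.card := by
    have h1 : (E.card : ℤ) = b - a + 2 * k * |x| := by
      rw [Int.card_Ico, Int.toNat_of_nonneg]
      · ring
      · have : 0 ≤ (k : ℤ) * |x| := by positivity
        linarith
    have h2 : (D.card : ℤ) = (k + 1) * S.card := by
      rw [Finset.card_product, Finset.card_range]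
      push_cast
      ring
    have : (E.card : ℤ) < D.card := by rw [h1, h2]; exact hcard
    exact_mod_cast this
  obtain ⟨⟨s, i⟩, hq, ⟨s', j⟩, hq', hne, heq⟩ :=
    Finset.exists_ne_map_eq_of_card_lt_of_maps_to hlt hmaps
  simp only [D, Finset.mem_product, Finset.mem_range] at hq hq'
  simp only [f] at heq
  have hij : i ≠ j := by
    rintro rfl
    apply hne
    have : s = s' := by linarith
    rw [this]
  rcases lt_or_gt_of_ne hij with h | h
  · refine ⟨j - i, by omega, by omega, s, hq.1, s', hq'.1, ?_⟩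
    rw [Nat.cast_sub h.le]
    linarith
  · refine ⟨i - j, by omega, by omega, s', hq'.1, s, hq.1, ?_⟩
    rw [Nat.cast_sub h.le]
    linarith

end Pool.Agent.K9h58.QD
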