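import Pool.Agent.K9h58.QD.Sub
import Pool.Agent.K9h58.QD.Pig

/-!
# Sets of rational numbers which are rich in integers
-/

set_option autoImplicit false

namespace Pool.Agent.K9h58.QD

open MvPolynomial
open Pool.Agent.TH255.HC Pool.Agent.TH255.QI

variable {k : ℕ}

/-- at least `α N` integers `m`, `|m| ≤ N`, are values of `G` at elements of `T` of absolute value
at most `N ^ c`, for every `N ≥ N₀` -/
def Rich (G : MvPolynomial (Fin k) ℤ) (c N₀ : ℕ) (α : ℝ) (T : Set ℚ) : Prop :=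
  ∀ N : ℕ, N₀ ≤ N → α * N ≤ ({m : ℤ | |m| ≤ N ∧
    ∃ t : Fin k → ℚ, (∀ i, t i ∈ T ∧ |t i| ≤ (N : ℚ) ^ c) ∧ aeval t G = (m : ℚ)}.ncard : ℝ)

/-- there are arbitrarily long intervals in which at least the proportion `α` of the integers are
values of `G` at elements of `T` -/
def Banach (G : MvPolynomial (Fin k) ℤ) (α : ℝ) (T : Set ℚ) : Prop :=
  ∀ L : ℕ, ∃ (l : ℕ) (a : ℤ), L ≤ l ∧ α * l ≤ ({m : ℤ | a ≤ m ∧ m < a + l ∧
    ∃ t : Fin k → ℚ, (∀ i, t i ∈ T) ∧ aeval t G = (m : ℚ)}.ncard : ℝ)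

/-- the difference of two values of `G` -/
noncomputable def diff (G : MvPolynomial (Fin k) ℤ) : MvPolynomial (Fin k ⊕ Fin k) ℤ :=
  rename Sum.inl G - rename Sum.inr G

lemma aeval_diff (G : MvPolynomial (Fin k) ℤ) (t t' : Fin k → ℚ) :
    aeval (Sum.elim t t') (diff G) = aeval t G - aeval t' G := by
  unfold diff
  rw [map_sub, aeval_rename, aeval_rename]
  rfl

/-- the bound for the multiples -/
noncomputable def rr (α : ℝ) : ℕ := ⌈4 / α⌉₊ + 1

lemma rr_spec {α : ℝ} (hα : 0 < α) : 4 ≤ α * rr α := by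
  have h1 : 4 / α ≤ rr α := by
    unfold rr
    have := Nat.le_ceil (4 / α)
    push_cast
    linarith
  rwa [div_le_iff₀ hα, mul_comm] at h1

theorem rich_hat (G : MvPolynomial (Fin k) ℤ) (c N₀ : ℕ) {α : ℝ} (hα : 0 < α) {T : Set ℚ}
    (hT : Rich G c N₀ α T) (x : ℤ) :
    (x : ℚ) ∈ Hat (diff G) c (2 * (max N₀ (rr α)) ^ 2) (rr α) T := by
  classical
  set r₀ := rr α with hr₀
  set M := max N₀ r₀ with hM
  have hr1 : 1 ≤ r₀ := by rw [hr₀]; unfold rr; omega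
  have hM1 : r₀ ≤ M := le_max_right _ _
  set n : ℕ := x.natAbs with hn
  have hnx : (n : ℤ) = |x| := by rw [hn]; exact Int.natCast_natAbs x
  set N : ℕ := M * (1 + n) with hN
  have hN0 : N₀ ≤ N := by
    have : N₀ ≤ M := le_max_left _ _
    rw [hN]; nlinarith
  have hS := hT N hN0
  set S : Set ℤ := {m : ℤ | |m| ≤ N ∧
    ∃ t : Fin k → ℚ, (∀ i, t i ∈ T ∧ |t i| ≤ (N : ℚ) ^ c) ∧ aeval t G = (m : ℚ)} with hSdef
  have hfin : S.Finite := (Set.finite_Icc (-(N : ℤ)) N).subset fun m hm => by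
    have := abs_le.mp hm.1
    exact ⟨this.1, this.2⟩
  rw [Set.ncard_eq_toFinset_card _ hfin] at hS
  have hNr : r₀ * (1 + n) ≤ N := Nat.mul_le_mul_right _ hM1
  -- pigeon hole
  obtain ⟨r, h1, h2, s, hs, s', hs', hr⟩ := pigeon hfin.toFinset (-(N : ℤ)) (N + 1) x r₀
    (fun s hs => by
      rw [Set.Finite.mem_toFinset] at hs
      have := abs_le.mp hs.1
      constructor
      · exact this.1
      · linarith [this.2])
    (by linarith [Int.natCast_nonneg N])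
    (by
      have e1 : (4 : ℝ) * N + α * N ≤ (r₀ + 1) * (hfin.toFinset.card : ℝ) := by
        have e2 : (0 : ℝ) ≤ N := Nat.cast_nonneg _
        have e3 : 4 * (N : ℝ) ≤ α * r₀ * N := mul_le_mul_of_nonneg_right (rr_spec hα) e2
        calc (4 : ℝ) * N + α * N ≤ (r₀ + 1) * (α * N) := by linarith
          _ ≤ _ := mul_le_mul_of_nonneg_left hS (by positivity)
      have e4 : (r₀ : ℝ) * (1 + n) ≤ N := by exact_mod_cast hNr
      have e5 : (1 : ℝ) ≤ r₀ := by exact_mod_cast hr1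
      have e6 : 0 ≤ α * (N : ℝ) := by positivity
      have e7 : (2 : ℝ) * N + 1 + 2 * r₀ * n < (r₀ + 1) * (hfin.toFinset.card : ℝ) := by
        nlinarith
      rw [← hnx]
      have e8 : ((((N : ℤ) + 1) - -(N : ℤ) + 2 * (r₀ : ℤ) * (n : ℤ) : ℤ) : ℝ) <
          ((((r₀ : ℤ) + 1) * (hfin.toFinset.card : ℤ) : ℤ) : ℝ) := by
        push_cast
        linarith
      exact_mod_cast e8)
  rw [Set.Finite.mem_toFinset] at hs hs'
  obtain ⟨-, t, ht, hts⟩ := hs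
  obtain ⟨-, t', ht', hts'⟩ := hs'
  have hsize : ∀ y : ℚ, |y| ≤ (N : ℚ) ^ c →
      y ^ 2 ≤ (((2 * M ^ 2 : ℕ) : ℚ) * (1 + (x : ℚ) ^ 2)) ^ c := by
    intro y hy
    have e1 : y ^ 2 ≤ ((N : ℚ) ^ c) ^ 2 := by
      rw [← sq_abs]
      exact pow_le_pow_left₀ (abs_nonneg _) hy 2
    have e2 : ((N : ℚ) ^ c) ^ 2 = ((N : ℚ) ^ 2) ^ c := by
      rw [← pow_mul, ← pow_mul, mul_comm]
    rw [e2] at e1
    refine e1.trans (pow_le_pow_left₀ (by positivity) ?_ c)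
    have e3 : (x : ℚ) ^ 2 = (n : ℚ) ^ 2 := by
      have : ((x ^ 2 : ℤ) : ℚ) = (((n : ℤ) ^ 2 : ℤ) : ℚ) := by rw [hnx, sq_abs]
      push_cast at this
      exact this
    rw [e3, hN]
    push_cast
    nlinarith [sq_nonneg ((M : ℚ) * (1 - n))]
  refine ⟨Sum.elim t t', ?_, r, h1, h2, ?_⟩
  · rintro (i | i)
    · exact ⟨(ht i).1, hsize _ (ht i).2⟩
    · exact ⟨(ht' i).1, hsize _ (ht' i).2⟩
  · rw [aeval_diff, hts, hts']
    exact_mod_cast hr

theorem banach_hat (G : MvPolynomial (Fin k) ℤ) {α : ℝ} (hα : 0 < α) {T : Set ℚ}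
    (hT : Banach G α T) (x : ℤ) : (x : ℚ) ∈ HatZ (diff G) (rr α) T := by
  classical
  set r₀ := rr α with hr₀
  set n : ℕ := x.natAbs with hn
  have hnx : (n : ℤ) = |x| := by rw [hn]; exact Int.natCast_natAbs x
  obtain ⟨l, a, hl, hS⟩ := hT (⌈(2 * r₀ * n + 1) / α⌉₊)
  set S : Set ℤ := {m : ℤ | a ≤ m ∧ m < a + l ∧
    ∃ t : Fin k → ℚ, (∀ i, t i ∈ T) ∧ aeval t G = (m : ℚ)} with hSdef
  have hfin : S.Finite := (Set.finite_Ico a (a + l)).subset fun m hm => ⟨hm.1, hm.2.1⟩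
  rw [Set.ncard_eq_toFinset_card _ hfin] at hS
  obtain ⟨r, h1, h2, s, hs, s', hs', hr⟩ := pigeon hfin.toFinset a (a + l) x r₀
    (fun s hs => by
      rw [Set.Finite.mem_toFinset] at hs
      exact ⟨hs.1, hs.2.1⟩)
    (by linarith [Int.natCast_nonneg l])
    (by
      have e0 : (2 * r₀ * n + 1) / α ≤ (l : ℝ) :=
        (Nat.le_ceil _).trans (by exact_mod_cast hl)
      rw [div_le_iff₀ hα] at e0
      have e2 : (0 : ℝ) ≤ l := Nat.cast_nonneg _
      have e3 : 4 * (l : ℝ) ≤ α * r₀ * l := mul_le_mul_of_nonneg_right (rr_spec hα) e2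
      have e1 : (4 : ℝ) * l + α * l ≤ (r₀ + 1) * (hfin.toFinset.card : ℝ) := by
        calc (4 : ℝ) * l + α * l ≤ (r₀ + 1) * (α * l) := by linarith
          _ ≤ _ := mul_le_mul_of_nonneg_left hS (by positivity)
      have e7 : (l : ℝ) + 2 * r₀ * n < (r₀ + 1) * (hfin.toFinset.card : ℝ) := by
        linarith
      rw [← hnx]
      have e8 : (((a + (l : ℤ)) - a + 2 * (r₀ : ℤ) * (n : ℤ) : ℤ) : ℝ) <
          ((((r₀ : ℤ) + 1) * (hfin.toFinset.card : ℤ) : ℤ) : ℝ) := by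
        push_cast
        linarith
      exact_mod_cast e8)
  rw [Set.Finite.mem_toFinset] at hs hs'
  obtain ⟨-, -, t, ht, hts⟩ := hs
  obtain ⟨-, -, t', ht', hts'⟩ := hs'
  refine ⟨Sum.elim t t', ?_, r, h1, h2, ?_⟩
  · rintro (i | i)
    · exact ht i
    · exact ht' i
  · rw [aeval_diff, hts, hts']
    exact_mod_cast hr

/-- definitions over the quasi-integers give definitions over rich sets -/
theorem dt_rich (G : MvPolynomial (Fin k) ℤ) (c N₀ : ℕ) {α A δ : ℝ} (hα : 0 < α)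
    (hδ : δ < 1 / 2) {P : (ℕ → ℚ) → Prop}
    (hP : ∀ A δ : ℝ, δ < 1 / 2 → DT (Qu A δ) (fun _ v => P v)) :
    DT (fun T => SmallDen A δ T ∧ Rich G c N₀ α T) (fun _ v => P v) := by
  have hr : 1 ≤ rr α := by unfold rr; omega
  have hK : 1 ≤ 2 * (max N₀ (rr α)) ^ 2 := by
    have : 1 ≤ (max N₀ (rr α)) ^ 2 := Nat.one_le_pow _ _ (lt_of_lt_of_le hr (le_max_right _ _))
    omega
  obtain ⟨A', hA'⟩ := hat_small (diff G) c (2 * (max N₀ (rr α)) ^ 2) (rr α) hK A δ (by linarith)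
  exact dt_sub (Φ := Hat (diff G) c (2 * (max N₀ (rr α)) ^ 2) (rr α))
    (fun T hT => ⟨fun z => rich_hat G c N₀ hα hT.2 z, hA' T hT.1⟩) (dt_hat _ _ _ _)
    (hP A' (max δ 0) (max_lt hδ (by norm_num)))

/-- definitions over the quasi-integers give definitions over sets of integers of positive upper
Banach density -/
theorem dt_banach (G : MvPolynomial (Fin k) ℤ) {α : ℝ} (hα : 0 < α) {P : (ℕ → ℚ) → Prop}
    (hP : ∀ A δ : ℝ, δ < 1 / 2 → DT (Qu A δ) (fun _ v => P v)) :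
    DT (fun T => (∀ x ∈ T, ∃ z : ℤ, x = z) ∧ Banach G α T) (fun _ v => P v) :=
  dt_sub (Φ := HatZ (diff G) (rr α))
    (fun _ hT => ⟨fun z => banach_hat G hα hT.2 z, hatZ_small _ _ hT.1⟩) (dt_hatZ _ _)
    (hP _ 0 (by norm_num))

end Pool.Agent.K9h58.QD
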