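import Pool.Agent.K9h58.QD.Num

/-!
# Substitution of definitions
-/

set_option autoImplicit false

namespace Pool.Agent.K9h58.QD

open MvPolynomial
open Pool.Agent.TH255.HC Pool.Agent.TH255.QI

lemma mix_self (w : ℕ → ℚ) : mix (fun n => w (2 * n)) (fun n => w (2 * n + 1)) = w := by
  funext n
  obtain ⟨m, rfl | rfl⟩ : ∃ m, n = 2 * m ∨ n = 2 * m + 1 := ⟨n / 2, by omega⟩
  · rw [mix_even]
  · rw [mix_odd]

/-- a definition with members of `Φ T` gives a definition with members of `T` -/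
theorem dt_sub {𝒯 𝒯' : Set ℚ → Prop} {Φ : Set ℚ → Set ℚ} (hΦ : ∀ T, 𝒯 T → 𝒯' (Φ T))
    (hd : DT 𝒯 (fun T v => v 0 ∈ Φ T)) {P : (ℕ → ℚ) → Prop} (h : DT 𝒯' (fun _ v => P v)) :
    DT 𝒯 (fun _ v => P v) := by
  obtain ⟨p, S, hp⟩ := h
  have h1 : DT 𝒯 (fun T w => aeval w p = 0 ∧ ∀ s ∈ S, w s ∈ Φ T) :=
    (DT.eq (f := fun w => aeval w p) ⟨p, fun _ => rfl⟩ PF.zero).and
      (DT.list S (fun s => hd.ren (fun _ => s)))
  have h2 : DT 𝒯 (fun T v => ∃ u, aeval (mix v u) p = 0 ∧ ∀ s ∈ S, mix v u s ∈ Φ T) := by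
    refine DT.exs (h1.congr fun T _ w => ?_)
    rw [mix_self]
  exact h2.congr fun T hT v => hp (Φ T) (hΦ T hT) v

variable {ι : Type} [Fintype ι]

/-- the place of a variable -/
noncomputable def pl (i : ι) : ℕ := (Fintype.equivFin ι i : ℕ)

/-- the environment with given values -/
noncomputable def env (t : ι → ℚ) (n : ℕ) : ℚ :=
  if h : n < Fintype.card ι then t ((Fintype.equivFin ι).symm ⟨n, h⟩) else 0

@[simp] lemma env_pl (t : ι → ℚ) (i : ι) : env t (pl i) = t i := by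
  unfold env pl
  rw [dif_pos (Fintype.equivFin ι i).2]
  simp

lemma prod_iff {r₀ : ℕ} {x y : ℚ} : ∏ r ∈ Finset.Icc 1 r₀, ((r : ℚ) * x - y) = 0 ↔
    ∃ r : ℕ, 1 ≤ r ∧ r ≤ r₀ ∧ (r : ℚ) * x = y := by
  rw [Finset.prod_eq_zero_iff]
  constructor
  · rintro ⟨r, hr, h⟩
    rw [Finset.mem_Icc] at hr
    exact ⟨r, hr.1, hr.2, by linarith⟩
  · rintro ⟨r, h1, h2, h⟩
    exact ⟨r, Finset.mem_Icc.2 ⟨h1, h2⟩, by linarith⟩

/-- the equation `r v₀ = G(u)` -/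
lemma dt_prod {𝒯 : Set ℚ → Prop} (G : MvPolynomial ι ℤ) (r₀ : ℕ) :
    DT 𝒯 (fun _ w => ∃ r : ℕ, 1 ≤ r ∧ r ≤ r₀ ∧
      (r : ℚ) * w (2 * 0) = aeval (fun i : ι => w (2 * pl i + 1)) G) := by
  refine (DT.eq (f := fun w => ∏ r ∈ Finset.Icc 1 r₀,
    ((r : ℚ) * w (2 * 0) - aeval (fun i : ι => w (2 * pl i + 1)) G)) ?_ PF.zero).congr ?_
  · refine ⟨∏ r ∈ Finset.Icc 1 r₀, (C (r : ℤ) * X (2 * 0) -
      rename (fun i : ι => 2 * pl i + 1) G), fun v => ?_⟩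
    rw [map_prod]
    refine Finset.prod_congr rfl fun r _ => ?_
    rw [map_sub, map_mul, aeval_C, aeval_X, aeval_rename]
    simp [Function.comp_def]
  · intro T _ w
    exact prod_iff.symm

/-- the set `Hat G c K r₀ T` is existentially definable from `T` -/
theorem dt_hat {𝒯 : Set ℚ → Prop} (G : MvPolynomial ι ℤ) (c K r₀ : ℕ) :
    DT 𝒯 (fun T v => v 0 ∈ Hat G c K r₀ T) := by
  have h1 : DT 𝒯 (fun T w => (∀ i ∈ (Finset.univ : Finset ι).toList, w (2 * pl i + 1) ∈ T ∧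
      w (2 * pl i + 1) ^ 2 ≤ (K * (1 + w (2 * 0) ^ 2)) ^ c) ∧
      ∃ r : ℕ, 1 ≤ r ∧ r ≤ r₀ ∧
        (r : ℚ) * w (2 * 0) = aeval (fun i : ι => w (2 * pl i + 1)) G) := by
    refine (DT.list _ fun i => (DT.mem (PF.od (pl i))).and (DT.le ((PF.od (pl i)).pow 2) ?_)).and
      (dt_prod G r₀)
    have hK : PF (fun _ => (K : ℚ)) := by
      have := PF.int (K : ℤ)
      simpa using this
    exact (hK.mul (PF.one.add ((PF.var (2 * 0)).pow 2))).pow c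
  have h2 : DT 𝒯 (fun T v => ∃ u : ℕ → ℚ, (∀ i ∈ (Finset.univ : Finset ι).toList, u (pl i) ∈ T ∧
      u (pl i) ^ 2 ≤ (K * (1 + v 0 ^ 2)) ^ c) ∧
      ∃ r : ℕ, 1 ≤ r ∧ r ≤ r₀ ∧ (r : ℚ) * v 0 = aeval (fun i : ι => u (pl i)) G) :=
    DT.exs h1
  refine h2.congr fun T _ v => ?_
  constructor
  · rintro ⟨t, ht, hr⟩
    refine ⟨env t, fun i _ => ?_, ?_⟩
    · rw [env_pl]; exact ht i
    · simp only [env_pl]; exact hr
  · rintro ⟨u, hu, hr⟩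
    exact ⟨fun i => u (pl i), fun i => hu i (by simp), hr⟩

/-- the rational numbers `x` some multiple `r x`, `1 ≤ r ≤ r₀`, of which is a value of `G` at
elements of `T` -/
def HatZ (G : MvPolynomial ι ℤ) (r₀ : ℕ) (T : Set ℚ) : Set ℚ :=
  {x | ∃ t : ι → ℚ, (∀ i, t i ∈ T) ∧ ∃ r : ℕ, 1 ≤ r ∧ r ≤ r₀ ∧ (r : ℚ) * x = aeval t G}

theorem dt_hatZ {𝒯 : Set ℚ → Prop} (G : MvPolynomial ι ℤ) (r₀ : ℕ) :
    DT 𝒯 (fun T v => v 0 ∈ HatZ G r₀ T) := by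
  have h1 : DT 𝒯 (fun T w => (∀ i ∈ (Finset.univ : Finset ι).toList, w (2 * pl i + 1) ∈ T) ∧
      ∃ r : ℕ, 1 ≤ r ∧ r ≤ r₀ ∧
        (r : ℚ) * w (2 * 0) = aeval (fun i : ι => w (2 * pl i + 1)) G) :=
    (DT.list _ fun i => DT.mem (PF.od (pl i))).and (dt_prod G r₀)
  have h2 : DT 𝒯 (fun T v => ∃ u : ℕ → ℚ, (∀ i ∈ (Finset.univ : Finset ι).toList, u (pl i) ∈ T) ∧
      ∃ r : ℕ, 1 ≤ r ∧ r ≤ r₀ ∧ (r : ℚ) * v 0 = aeval (fun i : ι => u (pl i)) G) :=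
    DT.exs h1
  refine h2.congr fun T _ v => ?_
  constructor
  · rintro ⟨t, ht, hr⟩
    refine ⟨env t, fun i _ => ?_, ?_⟩
    · rw [env_pl]; exact ht i
    · simp only [env_pl]; exact hr
  · rintro ⟨u, hu, hr⟩
    exact ⟨fun i => u (pl i), fun i => hu i (by simp), hr⟩

/-- values of `G` at integers are integers -/
lemma aeval_int (G : MvPolynomial ι ℤ) {t : ι → ℚ} (ht : ∀ i, ∃ z : ℤ, t i = z) :
    ∃ z : ℤ, (aeval t G : ℚ) = z := by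
  choose z hz using ht
  refine ⟨eval z G, ?_⟩
  have h4 : t = (algebraMap ℤ ℚ) ∘ z := by
    funext s
    rw [hz]
    simp
  rw [h4, aeval_algebraMap_apply]
  simp [aeval_eq_eval]

theorem hatZ_small (G : MvPolynomial ι ℤ) (r₀ : ℕ) {T : Set ℚ} (hT : ∀ x ∈ T, ∃ z : ℤ, x = z) :
    SmallDen (Real.log (max 1 r₀)) 0 (HatZ G r₀ T) := by
  rintro x ⟨t, ht, r, hr1, hr2, hrx⟩
  obtain ⟨z, hz⟩ := aeval_int G (fun i => hT _ (ht i))
  have h1 := den_of_mul hr1 hrx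
  rw [hz, Rat.den_intCast, mul_one] at h1
  rw [Real.rpow_zero, mul_one]
  apply Real.log_le_log (by exact_mod_cast x.den_pos)
  have h2 : x.den ≤ r₀ := h1.trans hr2
  exact le_trans (by exact_mod_cast h2) (le_max_right _ _)

end Pool.Agent.K9h58.QD
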